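import Mathlib

/-!
Cubic graphs with a perfect matching whose complement is listed circuit by circuit, and the
balanced labellings of the matching.
-/

namespace Pool.Agent.H90.Mod5

open Finset

variable {V : Type*}

/-- The circuits of `G - M` are listed: there are `r` of them, the `i`-th one has the `n i`
consecutive vertices `x i 0, …, x i (n i - 1)`. -/
structure IsCircuitListing (G : SimpleGraph V) (M : G.Subgraph) {r : ℕ} (n : Fin r → ℕ)
    (x : Fin r → ℕ → V) : Prop where
  three : ∀ i, 3 ≤ n i
  exists_unique : ∀ v, ∃! p : Fin r × ℕ, p.2 < n p.1 ∧ x p.1 p.2 = v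
  adj : ∀ i, ∀ k < n i, G.Adj (x i k) (x i ((k + 1) % n i)) ∧ ¬ M.Adj (x i k) (x i ((k + 1) % n i))

/-- The labellings of the vertices by three labels that give the two ends of every edge of `M` the
same label, i.e. the labellings of the edges of `M`. -/
def IsEdgeLabelling {G : SimpleGraph V} (M : G.Subgraph) (κ : V → Fin 3) : Prop :=
  ∀ u v, M.Adj u v → κ u = κ v

/-- On every circuit the numbers of vertices with the labels `0`, `1`, `2` have the same parity. -/
def Balanced {r : ℕ} (n : Fin r → ℕ) (x : Fin r → ℕ → V) (κ : V → Fin 3) : Prop :=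
  ∀ i, ∀ a b : Fin 3, ((range (n i)).filter (fun k => κ (x i k) = a)).card % 2 =
    ((range (n i)).filter (fun k => κ (x i k) = b)).card % 2

/-- The total number of inversions of the labels along the circuits. -/
def inversions {r : ℕ} (n : Fin r → ℕ) (x : Fin r → ℕ → V) (κ : V → Fin 3) : ℕ :=
  ∑ i, ((range (n i) ×ˢ range (n i)).filter
    (fun p => p.1 < p.2 ∧ κ (x i p.2) < κ (x i p.1))).card

/-- A proper edge-colouring with three colours. -/
def ThreeEdgeColourable (G : SimpleGraph V) : Prop :=
  ∃ c : V → V → Fin 3, (∀ a b, c a b = c b a) ∧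
    ∀ a b d, G.Adj a b → G.Adj a d → b ≠ d → c a b ≠ c a d

end Pool.Agent.H90.Mod5
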