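import Mathlib

set_option linter.unusedSectionVars false
set_option linter.unusedSimpArgs false
set_option linter.unusedVariables false

/-!
Two systems of three matrices with the same skein relation give the same value on every double
occurrence system of cyclic words.
-/

namespace Pool.Agent.H90.Mod5

open Matrix

/-- Three matrices with an anti-involution satisfying the contraction identities. -/
structure Sys (R : Type*) [CommRing R] where
  d : ℕ
  A : Fin 3 → Matrix (Fin d) (Fin d) R
  η : R
  hη : η * η = 1
  conj : Matrix (Fin d) (Fin d) R → Matrix (Fin d) (Fin d) R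
  conj_one : conj 1 = 1
  conj_mul : ∀ U V, conj (U * V) = conj V * conj U
  conj_A : ∀ a, conj (A a) = - A a
  two : ∀ U V, ∑ a, trace (A a * U) * trace (A a * V) = η * (trace (U * conj V) - trace (U * V))
  one : ∀ U V, ∑ a, trace (A a * (U * (A a * V))) =
    trace (U * conj V) - η * (trace U * trace V)

variable {R : Type*} [CommRing R] {ι : Type*} [Fintype ι] [DecidableEq ι]

namespace Sys

variable (s : Sys R)

/-- the product of the matrices along a word. -/
def wd (κ : ι → Fin 3) (w : List ι) : Matrix (Fin s.d) (Fin s.d) R :=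
  (w.map (fun l => s.A (κ l))).prod

lemma wd_nil (κ : ι → Fin 3) : s.wd κ [] = 1 := by simp [wd]

lemma wd_cons (κ : ι → Fin 3) (l : ι) (w : List ι) : s.wd κ (l :: w) = s.A (κ l) * s.wd κ w := by
  simp [wd]

lemma wd_append (κ : ι → Fin 3) (u v : List ι) : s.wd κ (u ++ v) = s.wd κ u * s.wd κ v := by
  simp [wd]

lemma wd_update (κ : ι → Fin 3) (m : ι) (a : Fin 3) (w : List ι) (hm : m ∉ w) :
    s.wd (Function.update κ m a) w = s.wd κ w := by
  unfold wd
  congr 1
  apply List.map_congr_left
  intro l hl
  have : l ≠ m := fun h => hm (h ▸ hl)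
  simp [Function.update_of_ne this]

lemma conj_wd (κ : ι → Fin 3) (w : List ι) :
    s.conj (s.wd κ w) = (-1 : R) ^ w.length • s.wd κ w.reverse := by
  induction w with
  | nil => simp [wd_nil, s.conj_one]
  | cons l w ih =>
    rw [wd_cons, s.conj_mul, ih, s.conj_A, List.reverse_cons, wd_append, wd_cons, wd_nil,
      List.length_cons, pow_succ]
    simp

/-- the value of a system of cyclic words. -/
def T (W : Multiset (List ι)) : R :=
  ∑ κ : ι → Fin 3, (W.map (fun w => s.η * trace (s.wd κ w))).prod

lemma T_rot (u v : List ι) (W : Multiset (List ι)) :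
    s.T ((u ++ v) ::ₘ W) = s.T ((v ++ u) ::ₘ W) := by
  unfold T
  apply Finset.sum_congr rfl
  intro κ _
  rw [Multiset.map_cons, Multiset.map_cons, Multiset.prod_cons, Multiset.prod_cons, wd_append,
    wd_append, trace_mul_comm]

lemma avg (F : (ι → Fin 3) → R) (m : ι) :
    3 * ∑ κ, F κ = ∑ κ, ∑ a, F (Function.update κ m a) := by
  have h1 : ∑ κ : ι → Fin 3, ∑ a : Fin 3, F (Function.update κ m a) =
      ∑ p : (ι → Fin 3) × Fin 3, F (Function.update p.1 m p.2) := by
    rw [Fintype.sum_prod_type]
  have h2 : ∑ p : (ι → Fin 3) × Fin 3, F (Function.update p.1 m p.2) =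
      ∑ p : (ι → Fin 3) × Fin 3, F p.1 := by
    let e : (ι → Fin 3) × Fin 3 → (ι → Fin 3) × Fin 3 := fun p => (Function.update p.1 m p.2, p.1 m)
    have he : Function.Involutive e := by
      rintro ⟨κ, a⟩
      simp [e]
    exact Fintype.sum_equiv he.toPerm _ _ (fun p => rfl)
  rw [h1, h2, Fintype.sum_prod_type]
  simp [Finset.mul_sum]

lemma rest_update (κ : ι → Fin 3) (m : ι) (a : Fin 3) (W : Multiset (List ι))
    (hW : ∀ w ∈ W, m ∉ w) :
    (W.map (fun w => s.η * trace (s.wd (Function.update κ m a) w))).prod =
      (W.map (fun w => s.η * trace (s.wd κ w))).prod := by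
  congr 1
  apply Multiset.map_congr rfl
  intro w hw
  rw [wd_update s κ m a w (hW w hw)]

lemma T_two (m : ι) (u v : List ι) (W : Multiset (List ι)) (hu : m ∉ u) (hv : m ∉ v)
    (hW : ∀ w ∈ W, m ∉ w) :
    3 * s.T ((m :: u) ::ₘ (m :: v) ::ₘ W) =
      (-1 : R) ^ v.length * s.T ((u ++ v.reverse) ::ₘ W) - s.T ((u ++ v) ::ₘ W) := by
  unfold T
  rw [avg _ m, Finset.mul_sum, ← Finset.sum_sub_distrib]
  apply Finset.sum_congr rfl
  intro κ _
  simp only [Multiset.map_cons, Multiset.prod_cons, rest_update s κ m _ W hW, wd_cons,
    wd_update s κ m _ u hu, wd_update s κ m _ v hv, Function.update_self, wd_append]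
  have h := s.two (s.wd κ u) (s.wd κ v)
  rw [conj_wd, Matrix.mul_smul, trace_smul, smul_eq_mul] at h
  have h2 : ∑ a, s.η * trace (s.A a * s.wd κ u) * (s.η * trace (s.A a * s.wd κ v) *
      (W.map (fun w => s.η * trace (s.wd κ w))).prod) =
      (s.η * s.η) * (W.map (fun w => s.η * trace (s.wd κ w))).prod *
        ∑ a, trace (s.A a * s.wd κ u) * trace (s.A a * s.wd κ v) := by
    rw [Finset.mul_sum]
    apply Finset.sum_congr rfl
    intro a _
    ring
  rw [h2, h, s.hη]
  ring

lemma T_one (m : ι) (u v : List ι) (W : Multiset (List ι)) (hu : m ∉ u) (hv : m ∉ v)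
    (hW : ∀ w ∈ W, m ∉ w) :
    3 * s.T ((m :: (u ++ m :: v)) ::ₘ W) =
      (-1 : R) ^ v.length * s.T ((u ++ v.reverse) ::ₘ W) - s.T (u ::ₘ v ::ₘ W) := by
  unfold T
  rw [avg _ m, Finset.mul_sum, ← Finset.sum_sub_distrib]
  apply Finset.sum_congr rfl
  intro κ _
  simp only [Multiset.map_cons, Multiset.prod_cons, rest_update s κ m _ W hW, wd_cons,
    wd_update s κ m _ u hu, wd_update s κ m _ v hv, Function.update_self, wd_append]
  have h := s.one (s.wd κ u) (s.wd κ v)
  rw [conj_wd, Matrix.mul_smul, trace_smul, smul_eq_mul] at h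
  have h2 : ∑ a, s.η * trace (s.A a * (s.wd κ u * (s.A a * s.wd κ v))) *
      (W.map (fun w => s.η * trace (s.wd κ w))).prod =
      s.η * (W.map (fun w => s.η * trace (s.wd κ w))).prod *
        ∑ a, trace (s.A a * (s.wd κ u * (s.A a * s.wd κ v))) := by
    rw [Finset.mul_sum]
    apply Finset.sum_congr rfl
    intro a _
    ring
  rw [h2, h]
  have h3 := s.hη
  linear_combination (0 : R) * h3

lemma T_base (W : Multiset (List ι)) (hW : ∀ w ∈ W, w = []) :
    s.T W = ∑ _κ : ι → Fin 3, (s.η * s.d) ^ W.card := by
  unfold T
  apply Finset.sum_congr rfl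
  intro κ _
  have : W.map (fun w => s.η * trace (s.wd κ w)) = W.map (fun _ => s.η * (s.d : R)) := by
    apply Multiset.map_congr rfl
    intro w hw
    rw [hW w hw, wd_nil, trace_one, Fintype.card_fin]
  rw [this, Multiset.map_const', Multiset.prod_replicate]

end Sys

/-- the number of occurrences of a letter. -/
def cnt (l : ι) (W : Multiset (List ι)) : ℕ := (W.map (List.count l)).sum

lemma cnt_cons (l : ι) (w : List ι) (W : Multiset (List ι)) :
    cnt l (w ::ₘ W) = w.count l + cnt l W := by simp [cnt]

lemma cnt_zero (l : ι) (W : Multiset (List ι)) (h : cnt l W = 0) : ∀ w ∈ W, l ∉ w := by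
  intro w hw hl
  obtain ⟨W', rfl⟩ := Multiset.exists_cons_of_mem hw
  rw [cnt_cons] at h
  have := List.count_pos_iff.mpr hl
  omega

lemma cnt_pos (l : ι) (W : Multiset (List ι)) (h : cnt l W ≠ 0) : ∃ w ∈ W, l ∈ w := by
  by_contra hcon
  push Not at hcon
  apply h
  unfold cnt
  apply Multiset.sum_eq_zero
  intro x hx
  obtain ⟨w, hw, rfl⟩ := Multiset.mem_map.mp hx
  exact List.count_eq_zero.mpr (hcon w hw)

/-- **Two systems with the same parameter agree.** -/
theorem T_eq (s s' : Sys R) (h : s.η * s.d = s'.η * s'.d) (h3 : ∀ a b : R, 3 * a = 3 * b → a = b) :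
    ∀ (N : ℕ) (W : Multiset (List ι)), (W.map List.length).sum = N →
      (∀ l, cnt l W = 0 ∨ cnt l W = 2) → s.T W = s'.T W := by
  intro N
  induction N using Nat.strong_induction_on with
  | _ N ih =>
  intro W hN hW
  by_cases hall : ∀ w ∈ W, w = []
  · rw [s.T_base W hall, s'.T_base W hall, h]
  · push Not at hall
    obtain ⟨w, hw, hne⟩ := hall
    obtain ⟨W', rfl⟩ := Multiset.exists_cons_of_mem hw
    obtain ⟨m, w', rfl⟩ : ∃ m w', w = m :: w' := by
      cases w with
      | nil => exact absurd rfl hne
      | cons m w' => exact ⟨m, w', rfl⟩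
    have hm : w'.count m + cnt m W' = 1 := by
      have := hW m
      rw [cnt_cons, List.count_cons_self] at this
      omega
    have hlen : w'.length + 1 + (W'.map List.length).sum = N := by
      rw [← hN, Multiset.map_cons, Multiset.sum_cons, List.length_cons]
    by_cases hmw : m ∈ w'
    · have hc1 : w'.count m = 1 := by
        have := List.count_pos_iff.mpr hmw
        omega
      have hW0 : cnt m W' = 0 := by omega
      obtain ⟨u, v, rfl⟩ := List.append_of_mem hmw
      rw [List.count_append, List.count_cons_self] at hc1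
      have hu : m ∉ u := List.count_eq_zero.mp (by omega)
      have hv : m ∉ v := List.count_eq_zero.mp (by omega)
      apply h3
      rw [s.T_one m u v W' hu hv (cnt_zero m W' hW0), s'.T_one m u v W' hu hv (cnt_zero m W' hW0)]
      rw [List.length_append, List.length_cons] at hlen
      have e1 : s.T ((u ++ v.reverse) ::ₘ W') = s'.T ((u ++ v.reverse) ::ₘ W') := by
        apply ih (u.length + v.length + (W'.map List.length).sum) (by omega)
        · simp
        · intro l
          rw [cnt_cons, List.count_append, List.count_reverse]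
          by_cases hl : l = m
          · subst hl
            left
            rw [List.count_eq_zero.mpr hu, List.count_eq_zero.mpr hv, hW0]
          · have := hW l
            rw [cnt_cons, List.count_cons_of_ne (Ne.symm hl), List.count_append,
              List.count_cons_of_ne (Ne.symm hl)] at this
            exact this
      have e2 : s.T (u ::ₘ v ::ₘ W') = s'.T (u ::ₘ v ::ₘ W') := by
        apply ih (u.length + v.length + (W'.map List.length).sum) (by omega)
        · simp [add_assoc]
        · intro l
          rw [cnt_cons, cnt_cons]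
          by_cases hl : l = m
          · subst hl
            left
            rw [List.count_eq_zero.mpr hu, List.count_eq_zero.mpr hv, hW0]
          · have := hW l
            rw [cnt_cons, List.count_cons_of_ne (Ne.symm hl), List.count_append,
              List.count_cons_of_ne (Ne.symm hl)] at this
            omega
      rw [e1, e2]
    · have hc0 : w'.count m = 0 := List.count_eq_zero.mpr hmw
      have hW1 : cnt m W' = 1 := by omega
      obtain ⟨w2, hw2, hmw2⟩ := cnt_pos m W' (by omega)
      obtain ⟨W'', rfl⟩ := Multiset.exists_cons_of_mem hw2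
      obtain ⟨v1, v2, rfl⟩ := List.append_of_mem hmw2
      rw [cnt_cons, List.count_append, List.count_cons_self] at hW1
      have hv1 : m ∉ v1 := List.count_eq_zero.mp (by omega)
      have hv2 : m ∉ v2 := List.count_eq_zero.mp (by omega)
      have hW0 : cnt m W'' = 0 := by omega
      have hvv : m ∉ v2 ++ v1 := by
        rw [List.mem_append]; rintro (h1 | h1)
        · exact hv2 h1
        · exact hv1 h1
      have hrot : ∀ t : Sys R, t.T ((m :: w') ::ₘ (v1 ++ m :: v2) ::ₘ W'') =
          t.T ((m :: w') ::ₘ (m :: (v2 ++ v1)) ::ₘ W'') := by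
        intro t
        rw [Multiset.cons_swap, t.T_rot v1 (m :: v2), Multiset.cons_swap]
        rfl
      rw [hrot s, hrot s']
      apply h3
      rw [s.T_two m w' (v2 ++ v1) W'' hmw hvv (cnt_zero m W'' hW0),
        s'.T_two m w' (v2 ++ v1) W'' hmw hvv (cnt_zero m W'' hW0)]
      rw [Multiset.map_cons, Multiset.sum_cons, List.length_append, List.length_cons] at hlen
      have key : ∀ l, l ≠ m → w'.count l + (v2.count l + v1.count l) + cnt l W'' = 0 ∨
          w'.count l + (v2.count l + v1.count l) + cnt l W'' = 2 := by
        intro l hl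
        have := hW l
        rw [cnt_cons, cnt_cons, List.count_cons_of_ne (Ne.symm hl), List.count_append,
              List.count_cons_of_ne (Ne.symm hl)] at this
        omega
      have e1 : s.T ((w' ++ (v2 ++ v1).reverse) ::ₘ W'') = s'.T ((w' ++ (v2 ++ v1).reverse) ::ₘ W'') := by
        apply ih (w'.length + (v2.length + v1.length) + (W''.map List.length).sum) (by omega)
        · rw [Multiset.map_cons, Multiset.sum_cons, List.length_append, List.length_reverse,
            List.length_append]
        · intro l
          rw [cnt_cons, List.count_append, List.count_reverse, List.count_append]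
          by_cases hl : l = m
          · subst hl
            left
            rw [hc0, List.count_eq_zero.mpr hv1, List.count_eq_zero.mpr hv2, hW0]
          · exact key l hl
      have e2 : s.T ((w' ++ (v2 ++ v1)) ::ₘ W'') = s'.T ((w' ++ (v2 ++ v1)) ::ₘ W'') := by
        apply ih (w'.length + (v2.length + v1.length) + (W''.map List.length).sum) (by omega)
        · rw [Multiset.map_cons, Multiset.sum_cons, List.length_append, List.length_append]
        · intro l
          rw [cnt_cons, List.count_append, List.count_append]
          by_cases hl : l = m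
          · subst hl
            left
            rw [hc0, List.count_eq_zero.mpr hv1, List.count_eq_zero.mpr hv2, hW0]
          · exact key l hl
      rw [e1, e2]

end Pool.Agent.H90.Mod5
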