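import Mathlib
import Pool.Agent.H90.Mod5.Sys

set_option linter.unusedSectionVars false
set_option linter.unusedSimpArgs false
set_option linter.unusedVariables false

/-!
The Pauli matrices and the rotation matrices over `ZMod 5`.
-/

namespace Pool.Agent.H90.Mod5

open Matrix

abbrev F5 := ZMod 5

/-- the Pauli matrices, with `i = 2`. -/
def P (a : Fin 3) : Matrix (Fin 2) (Fin 2) F5 :=
  match a with
  | 0 => !![0, 1; 1, 0]
  | 1 => !![0, -2; 2, 0]
  | 2 => !![1, 0; 0, -1]

/-- the matrices of the cross product. -/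
def L (a : Fin 3) : Matrix (Fin 3) (Fin 3) F5 :=
  match a with
  | 0 => !![0, 0, 0; 0, 0, 1; 0, -1, 0]
  | 1 => !![0, 0, -1; 0, 0, 0; 1, 0, 0]
  | 2 => !![0, 1, 0; -1, 0, 0; 0, 0, 0]

lemma five : (5 : F5) = 0 := rfl

lemma four_mul : (2 : F5) * 2 = -1 := by decide

lemma P_adj (a : Fin 3) : adjugate (P a) = - P a := by
  fin_cases a <;> (simp only [P, adjugate_fin_two_of]; ext i j; fin_cases i <;> fin_cases j <;> simp)

lemma P_two (U V : Matrix (Fin 2) (Fin 2) F5) :
    ∑ a, trace (P a * U) * trace (P a * V) = (-1) * (trace (U * adjugate V) - trace (U * V)) := by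
  rw [adjugate_fin_two]
  simp only [Fin.sum_univ_three, P, trace_fin_two, Matrix.mul_apply, Fin.sum_univ_two,
    Matrix.of_apply, Matrix.cons_val', Matrix.cons_val_zero, Matrix.cons_val_one,
    Matrix.cons_val_fin_one]
  have h := four_mul
  linear_combination (U 0 1 - U 1 0) * (V 0 1 - V 1 0) * h

lemma P_one (U V : Matrix (Fin 2) (Fin 2) F5) :
    ∑ a, trace (P a * (U * (P a * V))) =
      trace (U * adjugate V) - (-1) * (trace U * trace V) := by
  rw [adjugate_fin_two]
  simp only [Fin.sum_univ_three, P, trace_fin_two, Matrix.mul_apply, Fin.sum_univ_two,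
    Matrix.of_apply, Matrix.cons_val', Matrix.cons_val_zero, Matrix.cons_val_one,
    Matrix.cons_val_fin_one]
  have h := four_mul
  linear_combination (U 1 1 * V 0 0 + U 0 0 * V 1 1 - U 1 0 * V 1 0 - U 0 1 * V 0 1) * (- h)

lemma L_tr (a : Fin 3) : (L a)ᵀ = - L a := by
  fin_cases a <;> (simp only [L]; ext i j; fin_cases i <;> fin_cases j <;> simp)

lemma L_two (U V : Matrix (Fin 3) (Fin 3) F5) :
    ∑ a, trace (L a * U) * trace (L a * V) = 1 * (trace (U * Vᵀ) - trace (U * V)) := by
  simp only [Fin.sum_univ_three, L, trace_fin_three, Matrix.mul_apply, Matrix.transpose_apply,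
    Matrix.of_apply, Matrix.cons_val', Matrix.cons_val_zero, Matrix.cons_val_one,
    Matrix.cons_val_fin_one, Matrix.cons_val]
  ring

lemma L_one (U V : Matrix (Fin 3) (Fin 3) F5) :
    ∑ a, trace (L a * (U * (L a * V))) = trace (U * Vᵀ) - 1 * (trace U * trace V) := by
  simp only [Fin.sum_univ_three, L, trace_fin_three, Matrix.mul_apply, Matrix.transpose_apply,
    Matrix.of_apply, Matrix.cons_val', Matrix.cons_val_zero, Matrix.cons_val_one,
    Matrix.cons_val_fin_one, Matrix.cons_val]
  ring

/-- the system of the Pauli matrices. -/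
def sP : Sys F5 where
  d := 2
  A := P
  η := -1
  hη := by ring
  conj := adjugate
  conj_one := adjugate_one
  conj_mul := adjugate_mul_distrib
  conj_A := P_adj
  two := P_two
  one := P_one

/-- the system of the rotation matrices. -/
def sL : Sys F5 where
  d := 3
  A := L
  η := 1
  hη := by ring
  conj := transpose
  conj_one := transpose_one
  conj_mul := transpose_mul
  conj_A := L_tr
  two := L_two
  one := L_one

lemma three_cancel (a b : F5) (h : 3 * a = 3 * b) : a = b := by
  revert a b
  decide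

/-- **the value of the Pauli system is the value of the rotation system.** -/
theorem T_P_eq_T_L {ι : Type*} [Fintype ι] [DecidableEq ι] (W : Multiset (List ι))
    (hW : ∀ l, cnt l W = 2 ∨ cnt l W = 0) : sP.T W = sL.T W := by
  apply T_eq sP sL ?_ three_cancel _ W rfl
  · intro l; exact (hW l).symm
  · show (-1 : F5) * ((2 : ℕ) : F5) = 1 * ((3 : ℕ) : F5)
    decide

end Pool.Agent.H90.Mod5
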