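import Mathlib
import Pool.Agent.H90.Mod5.Two

set_option linter.unusedSectionVars false
set_option linter.unusedSimpArgs false
set_option linter.unusedVariables false

/-!
Traces of words in the Pauli matrices and in the rotation matrices.
-/

namespace Pool.Agent.H90.Mod5

open Matrix Finset

/-- the number of inversions of a word. -/
def inv : List (Fin 3) → ℕ
  | [] => 0
  | x :: w => inv w + w.countP (fun y => decide (y < x))

lemma P01 : P 1 * P 0 = -(P 0 * P 1) := by
  ext i j; fin_cases i <;> fin_cases j <;> simp [P, Matrix.mul_apply, Fin.sum_univ_two]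

lemma P02 : P 2 * P 0 = -(P 0 * P 2) := by
  ext i j; fin_cases i <;> fin_cases j <;> simp [P, Matrix.mul_apply, Fin.sum_univ_two]

lemma P12 : P 2 * P 1 = -(P 1 * P 2) := by
  ext i j; fin_cases i <;> fin_cases j <;> simp [P, Matrix.mul_apply, Fin.sum_univ_two]

lemma Psq (a : Fin 3) : P a * P a = 1 := by
  fin_cases a <;> (ext i j; fin_cases i <;> fin_cases j <;>
    (simp [P, Matrix.mul_apply, Fin.sum_univ_two]; try decide))

lemma swap_pow (X Y : Matrix (Fin 2) (Fin 2) F5) (h : Y * X = -(X * Y)) (k : ℕ) :
    Y * X ^ k = (-1 : F5) ^ k • (X ^ k * Y) := by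
  induction k with
  | zero => simp
  | succ k ih =>
    rw [pow_succ X, ← mul_assoc, ih, Matrix.smul_mul, mul_assoc, h, pow_succ (-1 : F5)]
    simp [mul_assoc]

lemma word_sort (w : List (Fin 3)) : (w.map P).prod = (-1 : F5) ^ inv w •
    (P 0 ^ w.count 0 * P 1 ^ w.count 1 * P 2 ^ w.count 2) := by
  induction w with
  | nil => simp [inv]
  | cons x w ih =>
    rw [List.map_cons, List.prod_cons, ih, Matrix.mul_smul]
    have hx : x = 0 ∨ x = 1 ∨ x = 2 := by
      fin_cases x <;> simp
    rcases hx with rfl | rfl | rfl
    · have h0 : w.countP (fun y => decide (y < (0 : Fin 3))) = 0 := by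
        rw [List.countP_eq_zero]
        intro a _
        simp
      rw [inv, h0, List.count_cons_self, List.count_cons_of_ne (by decide),
        List.count_cons_of_ne (by decide), pow_succ' (P 0)]
      simp only [mul_assoc, add_zero]
    · have h0 : w.countP (fun y => decide (y < (1 : Fin 3))) = w.count 0 := by
        rw [List.count]
        apply List.countP_congr
        intro a _
        fin_cases a <;> simp
      rw [inv, h0, List.count_cons_self, List.count_cons_of_ne (by decide),
        List.count_cons_of_ne (by decide), pow_succ' (P 1), pow_add, mul_smul]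
      congr 1
      rw [← mul_assoc, ← mul_assoc, swap_pow (P 0) (P 1) P01]
      simp only [Matrix.smul_mul, mul_assoc]
    · have h0 : w.countP (fun y => decide (y < (2 : Fin 3))) = w.count 0 + w.count 1 := by
        clear ih
        induction w with
        | nil => simp
        | cons y w ih =>
          rw [List.countP_cons, ih, List.count_cons, List.count_cons]
          fin_cases y <;> simp <;> omega
      rw [inv, h0, List.count_cons_self, List.count_cons_of_ne (by decide),
        List.count_cons_of_ne (by decide), pow_succ' (P 2), pow_add, pow_add, mul_smul]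
      congr 1
      have e1 := swap_pow (P 0) (P 2) P02 (w.count 0)
      have e2 := swap_pow (P 1) (P 2) P12 (w.count 1)
      calc P 2 * (P 0 ^ w.count 0 * P 1 ^ w.count 1 * P 2 ^ w.count 2)
          = (P 2 * P 0 ^ w.count 0) * P 1 ^ w.count 1 * P 2 ^ w.count 2 := by
            simp only [mul_assoc]
        _ = (-1 : F5) ^ w.count 0 • (P 0 ^ w.count 0 * (P 2 * P 1 ^ w.count 1) * P 2 ^ w.count 2) := by
            rw [e1]; simp only [Matrix.smul_mul, mul_assoc]
        _ = _ := by
            rw [e2]
            simp only [Matrix.smul_mul, Matrix.mul_smul, mul_assoc, mul_smul]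

lemma P_pow (a : Fin 3) (k : ℕ) : P a ^ k = if k % 2 = 0 then 1 else P a := by
  have h2 : P a ^ 2 = 1 := by rw [pow_two, Psq]
  rw [← Nat.div_add_mod k 2, pow_add, pow_mul, h2, one_pow, one_mul, Nat.mul_add_mod]
  rcases Nat.mod_two_eq_zero_or_one k with h | h <;> simp [h]

lemma tr_pow (a b c : ℕ) : trace (P 0 ^ a * P 1 ^ b * P 2 ^ c) =
    if a % 2 = b % 2 ∧ b % 2 = c % 2 then (if a % 2 = 0 then 2 else 4) else 0 := by
  rw [P_pow, P_pow, P_pow]
  rcases Nat.mod_two_eq_zero_or_one a with h | h <;>
  rcases Nat.mod_two_eq_zero_or_one b with h' | h' <;>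
  rcases Nat.mod_two_eq_zero_or_one c with h'' | h'' <;>
  simp [h, h', h'', P, trace_fin_two, Matrix.mul_apply, Fin.sum_univ_two] <;> try decide

/-- **the trace of a word in the Pauli matrices.** -/
theorem trace_word (w : List (Fin 3)) : trace ((w.map P).prod) =
    if w.count 0 % 2 = w.count 1 % 2 ∧ w.count 1 % 2 = w.count 2 % 2 then
      (-1 : F5) ^ inv w * (if w.length % 2 = 0 then 2 else 4) else 0 := by
  rw [word_sort, trace_smul, tr_pow, smul_eq_mul]
  by_cases h : w.count 0 % 2 = w.count 1 % 2 ∧ w.count 1 % 2 = w.count 2 % 2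
  · rw [if_pos h, if_pos h]
    congr 1
    have hl : w.length = w.count 0 + w.count 1 + w.count 2 := by
      clear h
      induction w with
      | nil => simp
      | cons y w ih =>
        rw [List.length_cons, ih, List.count_cons, List.count_cons, List.count_cons]
        fin_cases y <;> simp <;> omega
    have : w.count 0 % 2 = 0 ↔ w.length % 2 = 0 := by omega
    simp only [this]
  · rw [if_neg h, if_neg h, mul_zero]

/-- the inversions of a word given by a function. -/
lemma inv_range (n : ℕ) : ∀ g : ℕ → Fin 3, inv ((List.range n).map g) =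
    ((range n ×ˢ range n).filter (fun p => p.1 < p.2 ∧ g p.2 < g p.1)).card := by
  have key : ∀ (n : ℕ) (g : ℕ → Fin 3), ((range n ×ˢ range n).filter
      (fun p => p.1 < p.2 ∧ g p.2 < g p.1)).card =
      ∑ i ∈ range n, ∑ j ∈ range n, if i < j ∧ g j < g i then 1 else 0 := by
    intro n g
    rw [Finset.card_filter, Finset.sum_product]
  induction n with
  | zero => intro g; simp [inv]
  | succ n ih =>
    intro g
    rw [key, Finset.sum_range_succ', List.range_succ_eq_map, List.map_cons, List.map_map]
    rw [inv]
    have h1 : (List.map (g ∘ Nat.succ) (List.range n)) = (List.range n).map (fun k => g (k + 1)) := rfl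
    rw [h1, ih (fun k => g (k + 1)), key n (fun k => g (k + 1))]
    congr 1
    · apply Finset.sum_congr rfl
      intro i _
      rw [Finset.sum_range_succ']
      simp
    · rw [Finset.sum_range_succ']
      simp only [not_lt_zero, false_and, if_false, add_zero, Nat.succ_pos, true_and]
      rw [List.countP_map, List.countP_eq_length_filter, ← Finset.card_filter]
      rw [← List.toFinset_card_of_nodup (List.Nodup.filter _ List.nodup_range)]
      congr 1
      ext k
      simp

lemma count_range (n : ℕ) (g : ℕ → Fin 3) (a : Fin 3) : ((List.range n).map g).count a =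
    ((range n).filter (fun k => g k = a)).card := by
  rw [List.count, List.countP_map, List.countP_eq_length_filter,
    ← List.toFinset_card_of_nodup (List.Nodup.filter _ List.nodup_range)]
  congr 1
  ext k
  simp

lemma L_ne (a b c : Fin 3) (h : L a b c ≠ 0) : a ≠ b ∧ a ≠ c ∧ b ≠ c := by
  revert a b c
  decide

/-- a non-zero entry of a product of rotation matrices gives a walk. -/
lemma walk (g : ℕ → Fin 3) (n : ℕ) : ∀ a b : Fin 3,
    (((List.range n).map (fun k => L (g k))).prod) a b ≠ 0 →
    ∃ c : ℕ → Fin 3, c 0 = a ∧ c n = b ∧ ∀ k < n, L (g k) (c k) (c (k + 1)) ≠ 0 := by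
  induction n with
  | zero =>
    intro a b h
    simp only [List.range_zero, List.map_nil, List.prod_nil] at h
    have : a = b := by
      by_contra hab
      exact h (Matrix.one_apply_ne hab)
    exact ⟨fun _ => a, rfl, this, fun k hk => absurd hk (Nat.not_lt_zero k)⟩
  | succ n ih =>
    intro a b h
    rw [List.range_succ, List.map_append, List.prod_append, List.map_singleton,
      List.prod_singleton, Matrix.mul_apply] at h
    obtain ⟨j, _, hj⟩ := Finset.exists_ne_zero_of_sum_ne_zero h
    have h1 := left_ne_zero_of_mul hj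
    have h2 := right_ne_zero_of_mul hj
    obtain ⟨c, hc0, hcn, hc⟩ := ih a j h1
    refine ⟨fun k => if k ≤ n then c k else b, by simp [hc0], by simp, ?_⟩
    intro k hk
    rcases Nat.lt_succ_iff_lt_or_eq.mp hk with h3 | h3
    · have e1 : k ≤ n := h3.le
      have e2 : k + 1 ≤ n := h3
      simp only [e1, e2, if_true]
      exact hc k h3
    · subst h3
      have e2 : ¬ (k + 1 ≤ k) := by omega
      simp only [le_refl, if_true, e2, if_false, hcn]
      exact h2

lemma closed_walk (g : ℕ → Fin 3) (n : ℕ)
    (h : trace (((List.range n).map (fun k => L (g k))).prod) ≠ 0) :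
    ∃ c : ℕ → Fin 3, c n = c 0 ∧ ∀ k < n, g k ≠ c k ∧ g k ≠ c (k + 1) ∧ c k ≠ c (k + 1) := by
  obtain ⟨a, _, ha⟩ := Finset.exists_ne_zero_of_sum_ne_zero h
  obtain ⟨c, h0, hn, hc⟩ := walk g n a a ha
  exact ⟨c, by rw [hn, h0], fun k hk => L_ne _ _ _ (hc k hk)⟩

end Pool.Agent.H90.Mod5
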