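import Mathlib
import Pool.Agent.H90.Mod5.Word
import Pool.Agent.H90.Mod5.Defs

set_option linter.unusedSectionVars false
set_option linter.unusedSimpArgs false
set_option linter.unusedVariables false

/-!
Cubic graphs with a perfect matching: the signed number of balanced labellings modulo 5.
-/

namespace Pool.Agent.H90.Mod5

open Finset

variable {V : Type*}

lemma mate_unique {G : SimpleGraph V} {M : G.Subgraph} (hM : M.IsPerfectMatching) :
    ∀ v w w', M.Adj v w → M.Adj v w' → w = w' := by
  intro v w w' h1 h2
  exact (hM.1 (hM.2 v)).unique h1 h2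

/-- gluing the colours. -/
lemma colouring_of [Finite V] {G : SimpleGraph V} (hG : ∀ v, (G.neighborSet v).ncard = 3)
    {M : G.Subgraph} (hM : M.IsPerfectMatching) (nx : V → V)
    (h1 : ∀ v, G.Adj v (nx v) ∧ ¬ M.Adj v (nx v)) (h2 : Function.Injective nx)
    (h3 : ∀ v, nx (nx v) ≠ v) (κ ic oc : V → Fin 3) (hκ : ∀ u v, M.Adj u v → κ u = κ v)
    (hio : ∀ v, ic (nx v) = oc v) (hd : ∀ v, κ v ≠ ic v ∧ κ v ≠ oc v ∧ ic v ≠ oc v) :
    ThreeEdgeColourable G := by
  classical
  have hsurj : Function.Surjective nx := Finite.injective_iff_surjective.mp h2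
  -- the three neighbours
  have hnb : ∀ v w, G.Adj v w → M.Adj v w ∨ w = nx v ∨ v = nx w := by
    intro v w hvw
    obtain ⟨p, hp⟩ := hsurj v
    obtain ⟨m, hm, _⟩ := hM.1 (hM.2 v)
    have hpv : G.Adj v p := by
      have := (h1 p).1
      rw [hp] at this
      exact this.symm
    have hpM : ¬ M.Adj v p := by
      have := (h1 p).2
      rw [hp] at this
      exact fun h => this h.symm
    have hne1 : m ≠ nx v := fun h => (h1 v).2 (h ▸ hm)
    have hne2 : m ≠ p := fun h => hpM (h ▸ hm)
    have hne3 : nx v ≠ p := by
      intro h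
      apply h3 p
      rw [hp, h]
    have hsub : ({m, nx v, p} : Set V) ⊆ G.neighborSet v := by
      intro t ht
      rcases ht with rfl | rfl | rfl
      · exact hm.adj_sub
      · exact (h1 v).1
      · exact hpv
    have hcard : ({m, nx v, p} : Set V).ncard = 3 := by
      rw [Set.ncard_eq_three]
      exact ⟨m, nx v, p, hne1, hne2, hne3, rfl⟩
    have heq : ({m, nx v, p} : Set V) = G.neighborSet v := by
      apply Set.eq_of_subset_of_ncard_le hsub
      rw [hG v, hcard]
    have hw : w ∈ ({m, nx v, p} : Set V) := by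
      rw [heq]; exact hvw
    rcases hw with rfl | rfl | rfl
    · exact Or.inl hm
    · exact Or.inr (Or.inl rfl)
    · exact Or.inr (Or.inr hp.symm)
  let c : V → V → Fin 3 := fun u v => if M.Adj u v then κ u else if nx u = v then oc u else
    if nx v = u then oc v else 0
  have hcM : ∀ u v, M.Adj u v → c u v = κ u := fun u v h => if_pos h
  have hcN : ∀ u v, nx u = v → c u v = oc u := by
    intro u v h
    have : ¬ M.Adj u v := by rw [← h]; exact (h1 u).2
    simp only [c, if_neg this, if_pos h]
  have hcP : ∀ u v, nx v = u → c u v = oc v := by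
    intro u v h
    have hm : ¬ M.Adj u v := by
      intro hh
      have := (h1 v).2
      rw [h] at this
      exact this hh.symm
    have hn : ¬ nx u = v := by
      intro hh
      apply h3 v
      rw [h, hh]
    simp only [c, if_neg hm, if_neg hn, if_pos h]
  refine ⟨c, ?_, ?_⟩
  · intro a b
    by_cases hab : M.Adj a b
    · rw [hcM a b hab, hcM b a hab.symm, hκ a b hab]
    · by_cases hn : nx a = b
      · rw [hcN a b hn, hcP b a hn]
      · by_cases hp : nx b = a
        · rw [hcP a b hp, hcN b a hp]
        · have hba : ¬ M.Adj b a := fun h => hab h.symm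
          simp only [c, if_neg hab, if_neg hn, if_neg hp, if_neg hba]
  · -- colours at a vertex
    have hcol : ∀ a b, G.Adj a b → (M.Adj a b ∧ c a b = κ a) ∨ (b = nx a ∧ c a b = oc a) ∨
        (a = nx b ∧ c a b = ic a) := by
      intro a b hab
      rcases hnb a b hab with h | h | h
      · exact Or.inl ⟨h, hcM a b h⟩
      · exact Or.inr (Or.inl ⟨h, hcN a b h.symm⟩)
      · refine Or.inr (Or.inr ⟨h, ?_⟩)
        rw [hcP a b h.symm, h, hio]
    intro a b d hab had hbd
    obtain ⟨d1, d2, d3⟩ := hd a
    rcases hcol a b hab with ⟨h, e⟩ | ⟨h, e⟩ | ⟨h, e⟩ <;>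
    rcases hcol a d had with ⟨h', e'⟩ | ⟨h', e'⟩ | ⟨h', e'⟩ <;> rw [e, e']
    · exact absurd (mate_unique hM a b d h h') hbd
    · exact d2
    · exact d1
    · exact d2.symm
    · exact absurd (h.trans h'.symm) hbd
    · exact d3.symm
    · exact d1.symm
    · exact d3
    · exact absurd (h2 (h.symm.trans h')) hbd

/-- the relation of the edges of the matching. -/
def msetoid {G : SimpleGraph V} {M : G.Subgraph} (hM : M.IsPerfectMatching) : Setoid V where
  r u v := u = v ∨ M.Adj u v
  iseqv := by
    refine ⟨fun u => Or.inl rfl, ?_, ?_⟩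
    · rintro u v (h | h)
      · exact Or.inl h.symm
      · exact Or.inr h.symm
    · rintro u v w (rfl | h) (rfl | h')
      · exact Or.inl rfl
      · exact Or.inr h'
      · exact Or.inr h
      · exact Or.inl (mate_unique hM v u w h.symm h')

section Main

variable [Fintype V] {G : SimpleGraph V} {M : G.Subgraph} (hM : M.IsPerfectMatching)
  {r : ℕ} (n : Fin r → ℕ) (x : Fin r → ℕ → V)

/-- the letter of a vertex. -/
def letter (v : V) : Quotient (msetoid hM) := Quotient.mk _ v

/-- the words of the circuits. -/
def words : Multiset (List (Quotient (msetoid hM))) :=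
  (Finset.univ : Finset (Fin r)).val.map (fun i => (List.range (n i)).map (fun k => letter hM (x i k)))

lemma letter_eq (u v : V) : letter hM u = letter hM v ↔ (u = v ∨ M.Adj u v) := by
  unfold letter
  rw [Quotient.eq]
  exact Iff.rfl

lemma cnt_words (hx : IsCircuitListing G M n x) [DecidableEq (Quotient (msetoid hM))]
    (l : Quotient (msetoid hM)) : cnt l (words hM n x) = 2 := by
  classical
  obtain ⟨u, rfl⟩ := Quotient.exists_rep l
  change cnt (letter hM u) _ = 2
  have h1 : cnt (letter hM u) (words hM n x) = ∑ i : Fin r,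
      ((range (n i)).filter (fun k => letter hM (x i k) = letter hM u)).card := by
    unfold cnt words
    rw [Multiset.map_map]
    show ∑ i : Fin r, _ = _
    apply Finset.sum_congr rfl
    intro i _
    simp only [Function.comp]
    rw [List.count, List.countP_map, List.countP_eq_length_filter,
      ← List.toFinset_card_of_nodup (List.Nodup.filter _ List.nodup_range)]
    congr 1
    ext k
    simp
  rw [h1]
  obtain ⟨m, hm, _⟩ := hM.1 (hM.2 u)
  have hne : u ≠ m := hm.ne
  have h2 : ((Finset.univ : Finset (Fin r)).sigma (fun i =>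
      (range (n i)).filter (fun k => letter hM (x i k) = letter hM u))).card =
      ({u, m} : Finset V).card := by
    apply Finset.card_bij (fun p _ => x p.1 p.2)
    · rintro ⟨i, k⟩ hp
      simp only [Finset.mem_sigma, Finset.mem_filter, Finset.mem_univ, true_and, Finset.mem_range] at hp
      rw [Finset.mem_insert, Finset.mem_singleton]
      rcases (letter_eq hM _ _).mp hp.2 with h | h
      · exact Or.inl h
      · exact Or.inr (mate_unique hM u _ _ h.symm hm)
    · rintro ⟨i, k⟩ hp ⟨i', k'⟩ hp' heq
      simp only [Finset.mem_sigma, Finset.mem_filter, Finset.mem_univ, true_and, Finset.mem_range] at hp hp'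
      have := (hx.exists_unique (x i k)).unique (y₁ := (i, k)) (y₂ := (i', k')) ⟨hp.1, rfl⟩
        ⟨hp'.1, heq.symm⟩
      obtain ⟨rfl, rfl⟩ := Prod.mk.inj this
      rfl
    · intro w hw
      obtain ⟨⟨i, k⟩, ⟨hk, hxw⟩, _⟩ := hx.exists_unique w
      refine ⟨⟨i, k⟩, ?_, hxw⟩
      simp only [Finset.mem_sigma, Finset.mem_filter, Finset.mem_univ, true_and, Finset.mem_range]
      refine ⟨hk, ?_⟩
      rw [letter_eq]
      simp only at hxw
      rw [hxw]
      rw [Finset.mem_insert, Finset.mem_singleton] at hw
      rcases hw with rfl | rfl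
      · exact Or.inl rfl
      · exact Or.inr hm.symm
  rw [Finset.card_sigma] at h2
  rw [h2, Finset.card_pair hne]

/-- labellings of the letters are the labellings of the edges of `M`. -/
lemma sum_letters [DecidableEq V] [DecidableEq (Quotient (msetoid hM))]
    [Fintype (Quotient (msetoid hM))] [DecidablePred (fun κ : V → Fin 3 => IsEdgeLabelling M κ)]
    {R : Type*} [AddCommMonoid R]
    (F : (V → Fin 3) → R) :
    ∑ κ : Quotient (msetoid hM) → Fin 3, F (fun v => κ (letter hM v)) =
      ∑ κ ∈ (Finset.univ : Finset (V → Fin 3)).filter (fun κ => IsEdgeLabelling M κ), F κ := by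
  apply Finset.sum_bij (fun κ _ => fun v => κ (letter hM v))
  · intro κ _
    rw [Finset.mem_filter]
    refine ⟨Finset.mem_univ _, ?_⟩
    intro u v huv
    show κ _ = κ _
    congr 1
    exact (letter_eq hM u v).mpr (Or.inr huv)
  · intro κ _ κ' _ h
    funext l
    obtain ⟨u, rfl⟩ := Quotient.exists_rep l
    exact congrFun h u
  · intro κ hκ
    rw [Finset.mem_filter] at hκ
    refine ⟨Quotient.lift κ ?_, Finset.mem_univ _, rfl⟩
    rintro u v (rfl | h)
    · rfl
    · exact hκ.2 u v h
  · intro κ _
    rfl

end Main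

end Pool.Agent.H90.Mod5
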