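import Mathlib
import Pool.Agent.H90.Mod5.Graph

set_option linter.unusedSectionVars false
set_option linter.unusedSimpArgs false
set_option linter.unusedVariables false

/-!
The congruence modulo 5.
-/

namespace Pool.Agent.H90.Mod5

open Finset Matrix

instance fact5 : Fact (Nat.Prime 5) := ⟨by norm_num⟩

variable {V : Type*}

section Main

variable [Fintype V] {G : SimpleGraph V} {M : G.Subgraph} (hM : M.IsPerfectMatching)
  {r : ℕ} (n : Fin r → ℕ) (x : Fin r → ℕ → V)

lemma prod_words {R : Type*} [CommRing R] (f : List (Quotient (msetoid hM)) → R) :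
    ((words hM n x).map f).prod =
      ∏ i : Fin r, f ((List.range (n i)).map (fun k => letter hM (x i k))) := by
  unfold words
  rw [Multiset.map_map]
  rfl

/-- without a proper colouring the rotation system has the value zero. -/
lemma T_L_zero [DecidableEq (Quotient (msetoid hM))] [Fintype (Quotient (msetoid hM))]
    (hG : ∀ v, (G.neighborSet v).ncard = 3) (hx : IsCircuitListing G M n x)
    (hcol : ¬ ThreeEdgeColourable G) : sL.T (words hM n x) = 0 := by
  unfold Sys.T
  apply Finset.sum_eq_zero
  intro κ _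
  by_contra hne
  apply hcol
  rw [prod_words] at hne
  replace hne := Finset.prod_ne_zero_iff.mp hne
  have hw : ∀ i : Fin r, ∃ c : ℕ → Fin 3, c (n i) = c 0 ∧ ∀ k < n i,
      κ (letter hM (x i k)) ≠ c k ∧ κ (letter hM (x i k)) ≠ c (k + 1) ∧ c k ≠ c (k + 1) := by
    intro i
    apply closed_walk (fun k => κ (letter hM (x i k)))
    have h1 := right_ne_zero_of_mul (hne i (Finset.mem_univ i))
    intro h2
    apply h1
    rw [← h2]
    unfold Sys.wd
    rw [List.map_map]
    rfl
  choose c hc0 hc using hw
  have hpos : ∀ v, ∃ p : Fin r × ℕ, (p.2 < n p.1 ∧ x p.1 p.2 = v) ∧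
      ∀ q : Fin r × ℕ, q.2 < n q.1 → x q.1 q.2 = v → q = p := by
    intro v
    obtain ⟨p, hp, hu⟩ := hx.exists_unique v
    exact ⟨p, hp, fun q h1 h2 => hu q ⟨h1, h2⟩⟩
  choose pos hpos1 hpos2 using hpos
  have hposx : ∀ i k, k < n i → pos (x i k) = (i, k) := fun i k hk =>
    (hpos2 (x i k) (i, k) hk rfl).symm
  have hmod : ∀ v, ((pos v).2 + 1) % n (pos v).1 < n (pos v).1 := fun v =>
    Nat.mod_lt _ (by have := hx.three (pos v).1; omega)
  let nx : V → V := fun v => x (pos v).1 (((pos v).2 + 1) % n (pos v).1)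
  have hposn : ∀ v, pos (nx v) = ((pos v).1, ((pos v).2 + 1) % n (pos v).1) := fun v =>
    hposx _ _ (hmod v)
  have hstep : ∀ m k : ℕ, k < m → (k + 1) % m = if k + 1 = m then 0 else k + 1 := by
    intro m k hk
    split_ifs with h
    · rw [h, Nat.mod_self]
    · exact Nat.mod_eq_of_lt (by omega)
  refine colouring_of hG hM nx ?_ ?_ ?_ (fun v => κ (letter hM v))
    (fun v => c (pos v).1 (pos v).2) (fun v => c (pos v).1 ((pos v).2 + 1)) ?_ ?_ ?_
  · intro v
    have := hx.adj (pos v).1 (pos v).2 (hpos1 v).1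
    rw [(hpos1 v).2] at this
    exact this
  · intro u w huw
    have h1 := hposn u
    rw [huw, hposn w] at h1
    obtain ⟨h2, h3⟩ := Prod.mk.inj h1
    have hu := (hpos1 u).1
    have hw := (hpos1 w).1
    rw [← h2, hstep _ _ hw, hstep _ _ (by rw [h2]; exact hu)] at h3
    have h4 : (pos w).2 = (pos u).2 := by
      rw [← h2] at hu
      split_ifs at h3 <;> omega
    rw [← (hpos1 u).2, ← (hpos1 w).2, h2, h4]
  · intro v hv
    have h1 := hposn (nx v)
    rw [hv, hposn v] at h1
    have h3 := congrArg Prod.snd h1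
    simp only at h3
    have h4 := hx.three (pos v).1
    have h5 := (hpos1 v).1
    rw [hstep _ _ h5] at h3
    split_ifs at h3 with h6
    · rw [hstep _ _ (by omega)] at h3
      split_ifs at h3 <;> omega
    · rw [hstep _ _ (by omega)] at h3
      split_ifs at h3 <;> omega
  · intro u v huv
    show κ _ = κ _
    congr 1
    exact (letter_eq hM u v).mpr (Or.inr huv)
  · intro v
    show c (pos (nx v)).1 (pos (nx v)).2 = c (pos v).1 ((pos v).2 + 1)
    rw [hposn v, hstep _ _ (hpos1 v).1]
    split_ifs with h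
    · rw [h, hc0]
    · rfl
  · intro v
    have := hc (pos v).1 (pos v).2 (hpos1 v).1
    rw [(hpos1 v).2] at this
    exact this

/-- the Pauli trace of one circuit. -/
lemma P_factor (κ : V → Fin 3) (m : ℕ) (y : ℕ → V) :
    trace (((List.range m).map (fun k => P (κ (y k)))).prod) =
      if (∀ a b : Fin 3, ((range m).filter (fun k => κ (y k) = a)).card % 2 =
        ((range m).filter (fun k => κ (y k) = b)).card % 2) then
        (-1 : F5) ^ ((range m ×ˢ range m).filter
          (fun p => p.1 < p.2 ∧ κ (y p.2) < κ (y p.1))).card * (if m % 2 = 0 then 2 else 4)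
      else 0 := by
  have h1 : (List.range m).map (fun k => P (κ (y k))) =
      ((List.range m).map (fun k => κ (y k))).map P := by
    rw [List.map_map]; rfl
  rw [h1, trace_word, inv_range m (fun k => κ (y k)), count_range, count_range, count_range,
    List.length_map, List.length_range]
  have h2 : (((range m).filter (fun k => κ (y k) = 0)).card % 2 =
      ((range m).filter (fun k => κ (y k) = 1)).card % 2 ∧
      ((range m).filter (fun k => κ (y k) = 1)).card % 2 =
      ((range m).filter (fun k => κ (y k) = 2)).card % 2) ↔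
      (∀ a b : Fin 3, ((range m).filter (fun k => κ (y k) = a)).card % 2 =
        ((range m).filter (fun k => κ (y k) = b)).card % 2) := by
    constructor
    · rintro ⟨h, h'⟩ a b
      fin_cases a <;> fin_cases b <;> simp only [Fin.zero_eta, Fin.mk_one, Fin.reduceFinMk] <;> omega
    · intro h
      exact ⟨h 0 1, h 1 2⟩
  simp only [h2]

open Classical in
lemma T_P_value [DecidableEq (Quotient (msetoid hM))] [Fintype (Quotient (msetoid hM))] :
    sP.T (words hM n x) = (∏ i : Fin r, (-1 : F5) * (if n i % 2 = 0 then 2 else 4)) *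
      ∑ κ ∈ (Finset.univ : Finset (V → Fin 3)).filter
        (fun κ => IsEdgeLabelling M κ ∧ Balanced n x κ), (-1 : F5) ^ inversions n x κ := by
  let F : (V → Fin 3) → F5 := fun κ' => ∏ i : Fin r, (-1 : F5) *
        trace (((List.range (n i)).map (fun k => P (κ' (x i k)))).prod)
  have h0 : sP.T (words hM n x) = ∑ κ : Quotient (msetoid hM) → Fin 3,
      F (fun v => κ (letter hM v)) := by
    unfold Sys.T
    apply Finset.sum_congr rfl
    intro κ _
    rw [prod_words]
    apply Finset.prod_congr rfl
    intro i _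
    unfold Sys.wd
    rw [List.map_map]
    rfl
  rw [h0, sum_letters hM F, ← Finset.filter_filter, Finset.mul_sum, Finset.sum_filter (p := Balanced n x)]
  apply Finset.sum_congr rfl
  intro κ _
  show (∏ i : Fin r, (-1 : F5) *
        trace (((List.range (n i)).map (fun k => P (κ (x i k)))).prod)) = _
  by_cases hb : Balanced n x κ
  · rw [if_pos hb]
    have h1 : ∀ i : Fin r, (-1 : F5) *
        trace (((List.range (n i)).map (fun k => P (κ (x i k)))).prod) =
        ((-1 : F5) * (if n i % 2 = 0 then 2 else 4)) * (-1) ^ ((range (n i) ×ˢ range (n i)).filter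
          (fun p => p.1 < p.2 ∧ κ (x i p.2) < κ (x i p.1))).card := by
      intro i
      rw [P_factor κ (n i) (x i), if_pos (hb i)]
      ring
    simp only [h1]
    rw [Finset.prod_mul_distrib, Finset.prod_pow_eq_pow_sum]
    rfl
  · rw [if_neg hb]
    unfold Balanced at hb
    push Not at hb
    obtain ⟨i, a, b, hab⟩ := hb
    apply Finset.prod_eq_zero (Finset.mem_univ i)
    rw [P_factor κ (n i) (x i), if_neg, mul_zero]
    intro h
    exact hab (h a b)

end Main

/-- **The congruence.** -/
theorem main [Finite V] (G : SimpleGraph V) (hG : ∀ v, (G.neighborSet v).ncard = 3)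
    (M : G.Subgraph) (hM : M.IsPerfectMatching) {r : ℕ} (n : Fin r → ℕ) (x : Fin r → ℕ → V)
    (hx : IsCircuitListing G M n x) (hcol : ¬ ThreeEdgeColourable G) :
    {κ : V → Fin 3 | IsEdgeLabelling M κ ∧ Balanced n x κ ∧ Even (inversions n x κ)}.ncard ≡
      {κ : V → Fin 3 | IsEdgeLabelling M κ ∧ Balanced n x κ ∧ Odd (inversions n x κ)}.ncard
      [MOD 5] := by
  classical
  have := Fintype.ofFinite V
  have hT := T_P_eq_T_L (words hM n x) (fun l => Or.inl (cnt_words hM n x hx l))
  rw [T_L_zero hM n x hG hx hcol, T_P_value hM n x] at hT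
  have hC : (∏ i : Fin r, (-1 : F5) * (if n i % 2 = 0 then 2 else 4)) ≠ 0 := by
    rw [Finset.prod_ne_zero_iff]
    intro i _
    split_ifs <;> decide
  have hS := (mul_eq_zero.mp hT).resolve_left hC
  rw [← Finset.sum_filter_add_sum_filter_not _ (fun κ => Even (inversions n x κ))] at hS
  rw [Finset.filter_filter, Finset.filter_filter] at hS
  have e1 : ∀ κ ∈ (Finset.univ : Finset (V → Fin 3)).filter (fun κ =>
      (IsEdgeLabelling M κ ∧ Balanced n x κ) ∧ Even (inversions n x κ)),
      (-1 : F5) ^ inversions n x κ = 1 := by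
    intro κ hκ
    exact Even.neg_one_pow (Finset.mem_filter.mp hκ).2.2
  have e2 : ∀ κ ∈ (Finset.univ : Finset (V → Fin 3)).filter (fun κ =>
      (IsEdgeLabelling M κ ∧ Balanced n x κ) ∧ ¬ Even (inversions n x κ)),
      (-1 : F5) ^ inversions n x κ = -1 := by
    intro κ hκ
    exact Odd.neg_one_pow (Nat.not_even_iff_odd.mp (Finset.mem_filter.mp hκ).2.2)
  rw [Finset.sum_congr rfl e1, Finset.sum_congr rfl e2] at hS
  simp only [Finset.sum_const, nsmul_eq_mul, mul_one, mul_neg] at hS
  have c1 : {κ : V → Fin 3 | IsEdgeLabelling M κ ∧ Balanced n x κ ∧ Even (inversions n x κ)}.ncard =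
      ((Finset.univ : Finset (V → Fin 3)).filter (fun κ =>
      (IsEdgeLabelling M κ ∧ Balanced n x κ) ∧ Even (inversions n x κ))).card := by
    rw [← Set.ncard_coe_finset]
    congr 1
    ext κ
    simp [and_assoc]
  have c2 : {κ : V → Fin 3 | IsEdgeLabelling M κ ∧ Balanced n x κ ∧ Odd (inversions n x κ)}.ncard =
      ((Finset.univ : Finset (V → Fin 3)).filter (fun κ =>
      (IsEdgeLabelling M κ ∧ Balanced n x κ) ∧ ¬ Even (inversions n x κ))).card := by
    rw [← Set.ncard_coe_finset]
    congr 1
    ext κ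
    simp [and_assoc]
  rw [c1, c2, ← ZMod.natCast_eq_natCast_iff]
  linear_combination hS

end Pool.Agent.H90.Mod5
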